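import Pool.Agent.LPR.Stmts

/-!
# LPR, row FLO: flow boxes
-/

set_option autoImplicit false

open Set Topology MeasureTheory

namespace Pool.Agent.LPR.H49

open Pool.Agent.LSG Pool.Agent.LPR

theorem flo : FloStmt := by
  intro X _ _ φ hφ h0 hadd p hp
  let _ := TopologicalSpace.metrizableSpaceMetric X
  obtain ⟨τ, hτ0, hτ⟩ : ∃ τ : ℝ, 0 < τ ∧ φ τ p ≠ p := by
    obtain ⟨t, ht⟩ := hp
    rcases lt_trichotomy t 0 with h | h | h
    · refine ⟨-t, by linarith, fun he => ht ?_⟩
      have h1 := hadd t (-t) p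
      rw [he, add_neg_cancel, h0] at h1
      exact h1.symm
    · exact absurd (by rw [h, h0]) ht
    · exact ⟨t, h, ht⟩
  have hφc : ∀ {Y : Type} [TopologicalSpace Y] {a : Y → ℝ} {b : Y → X}, Continuous a →
      Continuous b → Continuous (fun y => φ (a y) (b y)) := fun ha hb => hφ.comp (ha.prodMk hb)
  set f : X → ℝ := fun x => dist x p / dist (φ τ p) p with hfdef
  have hf : Continuous f := (continuous_id.dist continuous_const).div_const _
  have hd0 : dist (φ τ p) p ≠ 0 := by
    rw [dist_ne_zero]; exact hτ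
  set g0 : X → ℝ := fun y => f (φ τ y) - f y with hg0def
  have hg0 : Continuous g0 := (hf.comp (hφc continuous_const continuous_id)).sub hf
  have hg0p : g0 p = 1 := by
    simp only [hg0def, hfdef, dist_self, zero_div, sub_zero]
    exact div_self hd0
  set F : X → ℝ := fun x => ∫ u in (0 : ℝ)..τ, f (φ u x) with hFdef
  have hF : Continuous F := by
    apply intervalIntegral.continuous_parametric_intervalIntegral_of_continuous'
    exact hf.comp (hφc continuous_snd continuous_fst)
  have hder : ∀ (x : X) (t : ℝ), HasDerivAt (fun t => F (φ t x)) (g0 (φ t x)) t := by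
    intro x t
    have hc : Continuous (fun u : ℝ => f (φ u x)) := hf.comp (hφc continuous_id continuous_const)
    have hi : ∀ a b : ℝ, IntervalIntegrable (fun u : ℝ => f (φ u x)) volume a b :=
      fun a b => hc.intervalIntegrable a b
    have e1 : (fun t => F (φ t x)) = fun t =>
        (∫ u in (0 : ℝ)..(τ + t), f (φ u x)) - ∫ u in (0 : ℝ)..t, f (φ u x) := by
      funext s
      simp only [hFdef]
      have e2 : ∀ u, f (φ u (φ s x)) = f (φ (u + s) x) := fun u => by rw [hadd]
      simp only [e2]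
      rw [intervalIntegral.integral_comp_add_right (fun u => f (φ u x)) s, zero_add,
        intervalIntegral.integral_interval_sub_left (hi _ _) (hi _ _)]
    rw [e1]
    have d1 : HasDerivAt (fun t => ∫ u in (0 : ℝ)..t, f (φ u x)) (f (φ t x)) t :=
      (hc.integral_hasStrictDerivAt 0 t).hasDerivAt
    have d2 : HasDerivAt (fun t => ∫ u in (0 : ℝ)..(τ + t), f (φ u x)) (f (φ (τ + t) x)) t := by
      have d3 : HasDerivAt (fun t => ∫ u in (0 : ℝ)..t, f (φ u x)) (f (φ (τ + t) x)) (τ + t) :=
        (hc.integral_hasStrictDerivAt 0 (τ + t)).hasDerivAt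
      exact d3.comp_const_add τ t
    have d4 := d2.sub d1
    have e3 : g0 (φ t x) = f (φ (τ + t) x) - f (φ t x) := by
      simp only [hg0def]
      rw [hadd]
    rw [e3]
    exact d4
  -- the radius
  obtain ⟨r, hr0, hr⟩ : ∃ r > 0, ∀ (t : ℝ) (x : X), |t| < r → dist x p < r →
      1 / 2 < g0 (φ t x) := by
    have hopen : IsOpen {q : ℝ × X | 1 / 2 < g0 (φ q.1 q.2)} :=
      isOpen_lt continuous_const (hg0.comp hφ)
    have hmem : ((0 : ℝ), p) ∈ {q : ℝ × X | 1 / 2 < g0 (φ q.1 q.2)} := by
      show 1 / 2 < g0 (φ 0 p)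
      rw [h0, hg0p]; norm_num
    obtain ⟨r, hr0, hr⟩ := Metric.isOpen_iff.mp hopen _ hmem
    refine ⟨r, hr0, fun t x ht hx => ?_⟩
    have : (t, x) ∈ Metric.ball ((0 : ℝ), p) r := by
      rw [Metric.mem_ball, Prod.dist_eq, max_lt_iff]
      exact ⟨by simpa [Real.dist_eq] using ht, hx⟩
    exact hr this
  obtain ⟨r2, hr20, hr2⟩ : ∃ r2 > 0, ∀ (t : ℝ) (x : X), |t| < r2 → dist x p < r2 →
      dist (φ t x) p < r := by
    have hopen : IsOpen {q : ℝ × X | dist (φ q.1 q.2) p < r} :=
      isOpen_lt (hφ.dist continuous_const) continuous_const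
    have hmem : ((0 : ℝ), p) ∈ {q : ℝ × X | dist (φ q.1 q.2) p < r} := by
      show dist (φ 0 p) p < r
      rw [h0, dist_self]; exact hr0
    obtain ⟨r2, hr20, hr2⟩ := Metric.isOpen_iff.mp hopen _ hmem
    refine ⟨r2, hr20, fun t x ht hx => ?_⟩
    have : (t, x) ∈ Metric.ball ((0 : ℝ), p) r2 := by
      rw [Metric.mem_ball, Prod.dist_eq, max_lt_iff]
      exact ⟨by simpa [Real.dist_eq] using ht, hx⟩
    exact hr2 this
  -- the slope
  have hs : ∀ x, dist x p < r → ∀ t1 t2 : ℝ, |t1| < r → |t2| < r → t1 ≤ t2 →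
      1 / 2 * (t2 - t1) ≤ F (φ t2 x) - F (φ t1 x) := by
    intro x hx t1 t2 h1 h2 h12
    apply Convex.mul_sub_le_image_sub_of_le_deriv (convex_Ioo (-r) r)
      (f := fun t => F (φ t x)) (fun t _ => (hder x t).continuousAt.continuousWithinAt)
      (fun t _ => (hder x t).differentiableAt.differentiableWithinAt) (C := 1 / 2)
    · intro t ht
      rw [interior_Ioo] at ht
      rw [(hder x t).deriv]
      exact (hr t x (abs_lt.mpr ht) hx).le
    · exact abs_lt.mp h1
    · exact abs_lt.mp h2
    · exact h12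
  have hs' : ∀ x, dist x p < r → ∀ t : ℝ, |t| < r → |t| ≤ 2 * |F (φ t x) - F x| := by
    intro x hx t ht
    rcases le_total 0 t with h | h
    · have h1 := hs x hx 0 t (by simpa using hr0) ht h
      rw [h0] at h1
      rw [abs_of_nonneg h]
      have h2 := le_abs_self (F (φ t x) - F x)
      linarith
    · have h1 := hs x hx t 0 ht (by simpa using hr0) h
      rw [h0] at h1
      rw [abs_of_nonpos h]
      have h2 := neg_abs_le (F (φ t x) - F x)
      linarith
  set δ : ℝ := min r r2 / 3 with hδ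
  have hδ0 : 0 < δ := by
    have : 0 < min r r2 := lt_min hr0 hr20
    positivity
  have hδr : 2 * δ < r := by
    have : min r r2 ≤ r := min_le_left _ _
    rw [hδ]; linarith
  have hδr2 : δ < r2 := by
    have : min r r2 ≤ r2 := min_le_right _ _
    rw [hδ]; linarith
  set S : Set X := {x | dist x p < r ∧ F x = F p} with hS
  let b : ↥S × ↥(Icc (-δ) δ) → X := fun q => φ q.2 q.1
  have hbc : Continuous b :=
    hφc (continuous_subtype_val.comp continuous_snd) (continuous_subtype_val.comp continuous_fst)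
  have habs : ∀ t : ↥(Icc (-δ) δ), |(t : ℝ)| ≤ δ := fun t => abs_le.mpr t.2
  have hkey : ∀ (q : ↥S × ↥(Icc (-δ) δ)) (s : ℝ), |s| ≤ δ →
      |(q.2 : ℝ) - s| ≤ 2 * |F (φ (-s) (b q)) - F p| := by
    intro q s hsδ
    have h1 : φ (-s) (b q) = φ ((q.2 : ℝ) - s) q.1 := by
      show φ (-s) (φ q.2 q.1) = _
      rw [← hadd]
      congr 1
      ring
    rw [h1, ← q.1.2.2]
    apply hs' _ q.1.2.1
    have h2 := habs q.2
    calc |(q.2 : ℝ) - s| ≤ |(q.2 : ℝ)| + |s| := abs_sub _ _
      _ ≤ δ + δ := add_le_add h2 hsδ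
      _ < r := by linarith
  have hinv : ∀ (q : ↥S × ↥(Icc (-δ) δ)), φ (-(q.2 : ℝ)) (b q) = q.1 := by
    intro q
    show φ (-(q.2 : ℝ)) (φ q.2 q.1) = _
    rw [← hadd, neg_add_cancel, h0]
  have hinj : Function.Injective b := by
    intro q q' hqq
    have h1 := hkey q (q'.2 : ℝ) (habs q'.2)
    rw [hqq, hinv q', q'.1.2.2, sub_self, abs_zero, mul_zero] at h1
    have h2 : (q.2 : ℝ) = q'.2 := by
      have := abs_nonpos_iff.mp h1
      linarith
    have h3 : (q.1 : X) = q'.1 := by
      rw [← hinv q, ← hinv q', hqq, h2]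
    exact Prod.ext (Subtype.ext h3) (Subtype.ext h2)
  let e := Equiv.ofInjective b hinj
  have hbe : ∀ y, b (e.symm y) = y := fun y => Equiv.apply_ofInjective_symm hinj y
  have ht : Continuous (fun y : ↥(range b) => ((e.symm y).2 : ℝ)) := by
    rw [continuous_iff_continuousAt]
    intro y0
    unfold ContinuousAt
    rw [tendsto_iff_norm_sub_tendsto_zero]
    have hc : Continuous (fun y : ↥(range b) =>
        2 * |F (φ (-((e.symm y0).2 : ℝ)) y) - F p|) :=
      continuous_const.mul ((hF.comp (hφc continuous_const continuous_subtype_val)).sub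
        continuous_const).abs
    have hlim := hc.tendsto y0
    have hz : 2 * |F (φ (-((e.symm y0).2 : ℝ)) y0) - F p| = 0 := by
      have h1 := hinv (e.symm y0)
      rw [hbe] at h1
      rw [h1, (e.symm y0).1.2.2, sub_self, abs_zero, mul_zero]
    rw [hz] at hlim
    refine squeeze_zero (fun _ => norm_nonneg _) (fun y => ?_) hlim
    have h1 := hkey (e.symm y) ((e.symm y0).2 : ℝ) (habs _)
    rw [hbe] at h1
    exact h1
  have hesymm : Continuous e.symm := by
    have h1 : Continuous (fun y : ↥(range b) => (e.symm y).1) := by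
      rw [continuous_induced_rng]
      have h2 : (Subtype.val ∘ fun y : ↥(range b) => (e.symm y).1) =
          fun y : ↥(range b) => φ (-((e.symm y).2 : ℝ)) y := by
        funext y
        have h3 := hinv (e.symm y)
        rw [hbe] at h3
        exact h3.symm
      rw [h2]
      exact hφc ht.neg continuous_subtype_val
    have h2 : Continuous (fun y : ↥(range b) => (e.symm y).2) := by
      rw [continuous_induced_rng]
      exact ht
    exact h1.prodMk h2
  let H : (↥S × ↥(Icc (-δ) δ)) ≃ₜ ↥(range b) :=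
    { toEquiv := e
      continuous_toFun := hbc.subtype_mk _
      continuous_invFun := hesymm }
  refine ⟨range b, ?_, S, ⟨H.symm.trans ((Homeomorph.refl _).prodCongr
    (iccHomeoI (-δ) δ (by linarith)))⟩⟩
  -- a neighbourhood
  have hn1 : ∀ᶠ y in 𝓝 p, dist y p < r := Metric.ball_mem_nhds p hr0
  have hn2 : ∀ᶠ y in 𝓝 p, dist y p < r2 := Metric.ball_mem_nhds p hr20
  have hn3 : ∀ᶠ y in 𝓝 p, |F y - F p| < δ / 2 := by
    have h1 := (hF.continuousAt (x := p))
    have h2 := Metric.tendsto_nhds.mp h1 (δ / 2) (by positivity)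
    filter_upwards [h2] with y hy
    rwa [Real.dist_eq] at hy
  filter_upwards [hn1, hn2, hn3] with y hy1 hy2 hy3
  have hδr' : |δ| < r := by rw [abs_of_pos hδ0]; linarith
  have hδr'' : |-δ| < r := by rw [abs_neg]; exact hδr'
  have hz : |(0 : ℝ)| < r := by simpa using hr0
  have hup := hs y hy1 0 δ hz hδr' hδ0.le
  have hlow := hs y hy1 (-δ) 0 hδr'' hz (by linarith)
  rw [h0] at hup hlow
  have hy4 := abs_lt.mp hy3
  have hcont : ContinuousOn (fun s => F (φ s y)) (Icc (-δ) δ) :=
    (hF.comp (hφc continuous_id continuous_const)).continuousOn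
  have hivt := intermediate_value_Icc (by linarith : -δ ≤ δ) hcont
  obtain ⟨s, hs1, hs2⟩ := hivt (show F p ∈ Icc (F (φ (-δ) y)) (F (φ δ y)) from
    ⟨by linarith, by linarith⟩)
  have hsabs : |s| ≤ δ := abs_le.mpr hs1
  refine ⟨(⟨φ s y, hr2 s y (by linarith) hy2, hs2⟩, ⟨-s, by constructor <;> linarith [hs1.1, hs1.2]⟩),
    ?_⟩
  show φ (-s) (φ s y) = y
  rw [← hadd, neg_add_cancel, h0]

end Pool.Agent.LPR.H49
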